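import Mathlib

/-!
# Auxiliary results for the number of distinct pairwise intersections in an antichain

* sums over the product space `ι → Fin (2h+1)`: a variance bound, a balance lemma and a union
  lemma;
* the antichain `coFam` (of complements) built from a system of base sets and the covering lemma;
* counting lemmas.
-/

open Finset

namespace Pool.Agent.Lib.MP_e9f532_co

/-! ### Part 1: sums over product spaces -/

variable {ι : Type} [Fintype ι] [DecidableEq ι]

/-- The colour classes. -/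
def colors (h : ℕ) (b : Bool) : Finset (Fin (2 * h + 1)) :=
  univ.filter (fun c => if b then (c : ℕ) < h else h ≤ (c : ℕ) ∧ (c : ℕ) < 2 * h)

lemma card_colors (h : ℕ) (b : Bool) : (colors h b).card = h := by
  have hmap : (colors h b).map Fin.valEmbedding
      = if b then Finset.range h else Finset.Ico h (2 * h) := by
    ext x
    cases b
    · simp only [colors, mem_map, mem_filter, mem_univ, true_and, Fin.valEmbedding_apply,
        Bool.false_eq_true, if_false, mem_Ico]
      constructor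
      · rintro ⟨c, hc, rfl⟩; exact hc
      · intro hx; exact ⟨⟨x, by omega⟩, hx, rfl⟩
    · simp only [colors, mem_map, mem_filter, mem_univ, true_and, Fin.valEmbedding_apply,
        if_true, mem_range]
      constructor
      · rintro ⟨c, hc, rfl⟩; exact hc
      · intro hx; exact ⟨⟨x, by omega⟩, hx, rfl⟩
  have := congrArg Finset.card hmap
  rw [card_map] at this
  rw [this]
  cases b
  · simp; omega
  · simp

lemma colors_disjoint (h : ℕ) : Disjoint (colors h true) (colors h false) := by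
  rw [Finset.disjoint_left]
  intro c hc hc'
  simp only [colors, mem_filter, mem_univ, true_and, if_true, Bool.false_eq_true, if_false]
    at hc hc'
  omega

/-- The density `h / (2h+1)` of a colour class. -/
noncomputable def cdens (h : ℕ) : ℝ := (h : ℝ) / (2 * h + 1)

lemma cdens_nonneg (h : ℕ) : 0 ≤ cdens h := by unfold cdens; positivity

lemma cdens_le_half (h : ℕ) : cdens h ≤ 1 / 2 := by
  unfold cdens
  rw [div_le_div_iff₀ (by positivity) (by norm_num)]
  linarith

/-- The centred indicator of a colour class. -/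
noncomputable def cen (h : ℕ) (b : Bool) (c : Fin (2 * h + 1)) : ℝ :=
  (if c ∈ colors h b then (1 : ℝ) else 0) - cdens h

lemma sum_cen (h : ℕ) (b : Bool) : ∑ c, cen h b c = 0 := by
  unfold cen
  rw [Finset.sum_sub_distrib]
  simp only [Finset.sum_ite_mem, Finset.univ_inter, Finset.sum_const, card_colors, nsmul_eq_mul,
    mul_one, Finset.card_univ, Fintype.card_fin]
  unfold cdens
  push_cast
  field_simp
  ring

lemma abs_cen_le (h : ℕ) (b : Bool) (c : Fin (2 * h + 1)) : |cen h b c| ≤ 1 := by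
  have h0 := cdens_nonneg h
  have h1 := cdens_le_half h
  unfold cen
  split_ifs
  · rw [abs_le]; constructor <;> linarith
  · rw [abs_le]; constructor <;> linarith

/-- Swapping the `i`-th coordinate with an external value. -/
def updEquiv {h : ℕ} (i : ι) : (ι → Fin (2 * h + 1)) × Fin (2 * h + 1) ≃
    (ι → Fin (2 * h + 1)) × Fin (2 * h + 1) where
  toFun x := (Function.update x.1 i x.2, x.1 i)
  invFun x := (Function.update x.1 i x.2, x.1 i)
  left_inv x := by simp
  right_inv x := by simp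

lemma sum_update {h : ℕ} (i : ι) (H : (ι → Fin (2 * h + 1)) → ℝ) :
    ∑ ω : ι → Fin (2 * h + 1), ∑ c : Fin (2 * h + 1), H (Function.update ω i c)
      = (2 * h + 1) * ∑ ω : ι → Fin (2 * h + 1), H ω := by
  have h1 : ∑ ω : ι → Fin (2 * h + 1), ∑ c : Fin (2 * h + 1), H (Function.update ω i c)
      = ∑ x : (ι → Fin (2 * h + 1)) × Fin (2 * h + 1), H (Function.update x.1 i x.2) := by
    rw [Fintype.sum_prod_type]
  have h2 : ∑ x : (ι → Fin (2 * h + 1)) × Fin (2 * h + 1), H (Function.update x.1 i x.2)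
      = ∑ x : (ι → Fin (2 * h + 1)) × Fin (2 * h + 1), H x.1 := by
    exact Fintype.sum_equiv (updEquiv i) _ _ (fun x => rfl)
  rw [h1, h2, Fintype.sum_prod_type]
  simp only [Finset.sum_const, Finset.card_univ, Fintype.card_fin, nsmul_eq_mul]
  rw [← Finset.mul_sum]
  push_cast
  ring

lemma sum_orth {h : ℕ} (i : ι) (b : Bool) (G : (ι → Fin (2 * h + 1)) → ℝ)
    (hG : ∀ ω c, G (Function.update ω i c) = G ω) :
    ∑ ω : ι → Fin (2 * h + 1), G ω * cen h b (ω i) = 0 := by
  have h1 := sum_update i (fun ω => G ω * cen h b (ω i))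
  simp only [hG, Function.update_self] at h1
  have h2 : ∀ ω : ι → Fin (2 * h + 1), ∑ c, G ω * cen h b c = 0 := by
    intro ω
    rw [← Finset.mul_sum, sum_cen, mul_zero]
  simp only [h2, Finset.sum_const_zero] at h1
  have h3 : (2 * (h : ℝ) + 1) ≠ 0 := by positivity
  rcases mul_eq_zero.1 h1.symm with h4 | h4
  · exact absurd h4 h3
  · exact h4

/-- Variance bound. -/
lemma variance {h : ℕ} (I : Finset ι) (b : ι → Bool) (u : ι → (ι → Fin (2 * h + 1)) → ℝ)
    (hu : ∀ i ∈ I, ∀ ω, |u i ω| ≤ 1)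
    (hind : ∀ i ∈ I, ∀ i' ∈ I, ∀ ω c, u i (Function.update ω i' c) = u i ω) :
    ∑ ω : ι → Fin (2 * h + 1), (∑ i ∈ I, u i ω * cen h (b i) (ω i)) ^ 2
      ≤ I.card * Fintype.card (ι → Fin (2 * h + 1)) := by
  have h1 : ∀ ω : ι → Fin (2 * h + 1), (∑ i ∈ I, u i ω * cen h (b i) (ω i)) ^ 2
      = ∑ i ∈ I, ∑ i' ∈ I, (u i ω * cen h (b i) (ω i)) * (u i' ω * cen h (b i') (ω i')) := by
    intro ω
    rw [sq, Finset.sum_mul_sum]
  simp only [h1]
  rw [Finset.sum_comm]
  have h2 : ∀ i ∈ I, ∑ ω : ι → Fin (2 * h + 1), ∑ i' ∈ I,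
      (u i ω * cen h (b i) (ω i)) * (u i' ω * cen h (b i') (ω i'))
      ≤ Fintype.card (ι → Fin (2 * h + 1)) := by
    intro i hi
    rw [Finset.sum_comm]
    have h3 : ∀ i' ∈ I, i' ≠ i → ∑ ω : ι → Fin (2 * h + 1),
        (u i ω * cen h (b i) (ω i)) * (u i' ω * cen h (b i') (ω i')) = 0 := by
      intro i' hi' hne
      have := sum_orth i (b i)
        (fun ω => u i ω * (u i' ω * cen h (b i') (ω i'))) (by
          intro ω c
          simp only [hind i hi i hi, hind i' hi' i hi, Function.update_of_ne hne])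
      rw [← this]
      apply Finset.sum_congr rfl
      intro ω _
      ring
    rw [Finset.sum_eq_single_of_mem i hi (fun i' hi' hne => h3 i' hi' hne)]
    have h4 : ∀ ω : ι → Fin (2 * h + 1),
        (u i ω * cen h (b i) (ω i)) * (u i ω * cen h (b i) (ω i)) ≤ 1 := by
      intro ω
      have e1 := hu i hi ω
      have e2 := abs_cen_le h (b i) (ω i)
      have e3 : |u i ω * cen h (b i) (ω i)| ≤ 1 := by
        rw [abs_mul]
        exact mul_le_one₀ e1 (abs_nonneg _) e2
      have e4 := abs_le.1 e3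
      nlinarith [e4.1, e4.2]
    calc ∑ ω : ι → Fin (2 * h + 1),
        (u i ω * cen h (b i) (ω i)) * (u i ω * cen h (b i) (ω i))
        ≤ ∑ _ω : ι → Fin (2 * h + 1), (1 : ℝ) := Finset.sum_le_sum (fun ω _ => h4 ω)
      _ = Fintype.card (ι → Fin (2 * h + 1)) := by simp
  calc ∑ i ∈ I, ∑ ω : ι → Fin (2 * h + 1), ∑ i' ∈ I,
      (u i ω * cen h (b i) (ω i)) * (u i' ω * cen h (b i') (ω i'))
      ≤ ∑ _i ∈ I, (Fintype.card (ι → Fin (2 * h + 1)) : ℝ) := Finset.sum_le_sum h2
    _ = I.card * Fintype.card (ι → Fin (2 * h + 1)) := by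
      simp only [Finset.sum_const, nsmul_eq_mul]

/-- Balance lemma: a weight `d` with values in `[0, v]` is unbalanced in few directions. -/
lemma balance {h : ℕ} (I : Finset ι) (b : ι → Bool) (d : (ι → Fin (2 * h + 1)) → ℝ) (v τ : ℝ)
    (hd0 : ∀ ω, 0 ≤ d ω) (hdv : ∀ ω, d ω ≤ v) (hτ : 0 < τ)
    (hI : ∀ i ∈ I, τ ≤ ∑ ω : ι → Fin (2 * h + 1), d ω * cen h (b i) (ω i)) :
    (I.card : ℝ) * τ ^ 2 ≤ (v * Fintype.card (ι → Fin (2 * h + 1))) ^ 2 := by
  set K : ℝ := ((Fintype.card (ι → Fin (2 * h + 1)) : ℕ) : ℝ) with hK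
  have hv : 0 ≤ v := le_trans (hd0 (fun _ => 0)) (hdv _)
  have hK0 : 0 ≤ K := by rw [hK]; positivity
  have h1 : (I.card : ℝ) * τ ≤ ∑ ω : ι → Fin (2 * h + 1),
      d ω * (∑ i ∈ I, 1 * cen h (b i) (ω i)) := by
    calc (I.card : ℝ) * τ = ∑ _i ∈ I, τ := by simp
      _ ≤ ∑ i ∈ I, ∑ ω : ι → Fin (2 * h + 1), d ω * cen h (b i) (ω i) := Finset.sum_le_sum hI
      _ = ∑ ω : ι → Fin (2 * h + 1), d ω * (∑ i ∈ I, 1 * cen h (b i) (ω i)) := by
        rw [Finset.sum_comm]
        apply Finset.sum_congr rfl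
        intro ω _
        rw [Finset.mul_sum]
        simp only [one_mul]
  have h2 : (∑ ω : ι → Fin (2 * h + 1), d ω * (∑ i ∈ I, 1 * cen h (b i) (ω i))) ^ 2
      ≤ (∑ ω : ι → Fin (2 * h + 1), d ω ^ 2)
        * ∑ ω : ι → Fin (2 * h + 1), (∑ i ∈ I, 1 * cen h (b i) (ω i)) ^ 2 :=
    Finset.sum_mul_sq_le_sq_mul_sq _ _ _
  have h3 : ∑ ω : ι → Fin (2 * h + 1), d ω ^ 2 ≤ v ^ 2 * K := by
    calc ∑ ω : ι → Fin (2 * h + 1), d ω ^ 2 ≤ ∑ _ω : ι → Fin (2 * h + 1), v ^ 2 :=
          Finset.sum_le_sum (fun ω _ => by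
            have := hd0 ω; have := hdv ω; nlinarith)
      _ = v ^ 2 * K := by simp [hK, mul_comm]
  have h4 := variance (h := h) I b (fun _ _ => 1) (by simp) (by simp)
  rw [← hK] at h4
  have h5 : ((I.card : ℝ) * τ) ^ 2 ≤ (v ^ 2 * K) * (I.card * K) := by
    calc ((I.card : ℝ) * τ) ^ 2
        ≤ (∑ ω : ι → Fin (2 * h + 1), d ω * (∑ i ∈ I, 1 * cen h (b i) (ω i))) ^ 2 := by
          apply pow_le_pow_left₀ (by positivity) h1
      _ ≤ _ := h2
      _ ≤ (v ^ 2 * K) * (I.card * K) := by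
          apply mul_le_mul h3 h4 (Finset.sum_nonneg (fun _ _ => sq_nonneg _)) (by positivity)
  rcases Nat.eq_zero_or_pos I.card with h0 | h0
  · rw [h0]; simp only [Nat.cast_zero, zero_mul]; positivity
  · have h0' : (0 : ℝ) < I.card := by exact_mod_cast h0
    have h6 : (I.card : ℝ) * ((I.card : ℝ) * τ ^ 2) ≤ (I.card : ℝ) * (v * K) ^ 2 := by
      nlinarith [h5]
    exact le_of_mul_le_mul_left h6 h0'

lemma le_of_sq_le_sq_aux {x y : ℝ} (h : x ^ 2 ≤ y ^ 2) (hy : 0 ≤ y) : x ≤ y :=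
  le_trans (le_abs_self x) (abs_le_of_sq_le_sq h hy)

/-- Union lemma. -/
lemma union_bound {h : ℕ} (I : Finset ι) (b : ι → Bool) (κ : ι → ι) (β : ι → Bool)
    (hκ : ∀ i ∈ I, κ i ∉ I) (U : Finset (ι → Fin (2 * h + 1)))
    (hU : ∀ i ∈ I, ∀ ω : ι → Fin (2 * h + 1), ω (κ i) ∈ colors h (β i) →
      ω i ∉ colors h (b i) → ω ∈ U)
    (r : ℕ) (hr : 0 < r) (hI : I.card = r ^ 2) :
    ((r : ℝ) * cdens h - 2) * ((Fintype.card (ι → Fin (2 * h + 1)) : ℕ) : ℝ)
      ≤ r * (U.card : ℝ) := by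
  classical
  set K : ℝ := ((Fintype.card (ι → Fin (2 * h + 1)) : ℕ) : ℝ) with hK
  have hK0 : 0 ≤ K := by rw [hK]; positivity
  set u : ι → (ι → Fin (2 * h + 1)) → ℝ :=
    fun i ω => if ω (κ i) ∈ colors h (β i) then (1 : ℝ) else 0 with hu
  have hu0 : ∀ i ω, 0 ≤ u i ω := by
    intro i ω; simp only [hu]; split_ifs <;> norm_num
  have hu1 : ∀ i ω, u i ω ≤ 1 := by
    intro i ω; simp only [hu]; split_ifs <;> norm_num
  have hvar := variance (h := h) I b u
    (fun i _ ω => by rw [abs_of_nonneg (hu0 i ω)]; exact hu1 i ω)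
    (by
      intro i hi i' hi' ω c
      have hne : κ i ≠ i' := fun hh => hκ i hi (hh ▸ hi')
      simp only [hu, Function.update_of_ne hne])
  rw [← hK, hI] at hvar
  set S : (ι → Fin (2 * h + 1)) → ℝ := fun ω => ∑ i ∈ I, u i ω with hS
  have hS0 : ∀ ω, 0 ≤ S ω := fun ω => Finset.sum_nonneg (fun i _ => hu0 i ω)
  have hS1 : ∀ ω, S ω ≤ (r : ℝ) ^ 2 := by
    intro ω
    calc S ω ≤ ∑ _i ∈ I, (1 : ℝ) := Finset.sum_le_sum (fun i _ => hu1 i ω)
      _ = (r : ℝ) ^ 2 := by simp [hI]
  -- the total mass of `S`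
  have hmass : ∑ ω, S ω = (r : ℝ) ^ 2 * (cdens h * K) := by
    have h1 : ∀ i ∈ I, ∑ ω : ι → Fin (2 * h + 1), u i ω = cdens h * K := by
      intro i _
      have h2 := sum_orth (h := h) (κ i) (β i) (fun _ => 1) (by simp)
      simp only [one_mul, cen, Finset.sum_sub_distrib] at h2
      simp only [Finset.sum_const, Finset.card_univ, nsmul_eq_mul] at h2
      simp only [hu]
      rw [← hK] at h2
      linarith
    simp only [hS]
    rw [Finset.sum_comm, Finset.sum_congr rfl h1]
    simp [hI]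
  -- off `U`
  have hoff : ∀ ω ∈ Uᶜ, S ω ^ 2 ≤ 4 * (∑ i ∈ I, u i ω * cen h (b i) (ω i)) ^ 2 := by
    intro ω hω
    rw [mem_compl] at hω
    have h1 : S ω / 2 ≤ ∑ i ∈ I, u i ω * cen h (b i) (ω i) := by
      simp only [hS]
      rw [Finset.sum_div]
      apply Finset.sum_le_sum
      intro i hi
      by_cases hc : ω (κ i) ∈ colors h (β i)
      · have hin : ω i ∈ colors h (b i) := by
          by_contra hcon
          exact hω (hU i hi ω hc hcon)
        simp only [hu, if_pos hc, cen, if_pos hin]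
        have := cdens_le_half h
        linarith
      · simp only [hu, if_neg hc]
        simp
    have h2 : 0 ≤ S ω / 2 := by have := hS0 ω; positivity
    nlinarith [pow_le_pow_left₀ h2 h1 2]
  have hsq : ∑ ω ∈ Uᶜ, S ω ^ 2 ≤ 4 * ((r : ℝ) ^ 2 * K) := by
    calc ∑ ω ∈ Uᶜ, S ω ^ 2
        ≤ ∑ ω ∈ Uᶜ, 4 * (∑ i ∈ I, u i ω * cen h (b i) (ω i)) ^ 2 := Finset.sum_le_sum hoff
      _ ≤ ∑ ω, 4 * (∑ i ∈ I, u i ω * cen h (b i) (ω i)) ^ 2 :=
          Finset.sum_le_sum_of_subset_of_nonneg (subset_univ _) (fun _ _ _ => by positivity)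
      _ = 4 * ∑ ω, (∑ i ∈ I, u i ω * cen h (b i) (ω i)) ^ 2 := by rw [Finset.mul_sum]
      _ ≤ 4 * ((r : ℝ) ^ 2 * K) := by
          have : ((r ^ 2 : ℕ) : ℝ) = (r : ℝ) ^ 2 := by push_cast; ring
          rw [this] at hvar
          linarith
  have hcs : (∑ ω ∈ Uᶜ, S ω) ^ 2 ≤ (2 * r * K) ^ 2 := by
    calc (∑ ω ∈ Uᶜ, S ω) ^ 2 = (∑ ω ∈ Uᶜ, 1 * S ω) ^ 2 := by simp
      _ ≤ (∑ ω ∈ Uᶜ, (1 : ℝ) ^ 2) * ∑ ω ∈ Uᶜ, S ω ^ 2 := Finset.sum_mul_sq_le_sq_mul_sq _ _ _
      _ ≤ K * (4 * ((r : ℝ) ^ 2 * K)) := by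
          apply mul_le_mul _ hsq (Finset.sum_nonneg (fun _ _ => sq_nonneg _)) hK0
          simp only [one_pow, Finset.sum_const, nsmul_eq_mul, mul_one, hK]
          exact_mod_cast Finset.card_le_univ _
      _ = (2 * r * K) ^ 2 := by ring
  have hcs' : ∑ ω ∈ Uᶜ, S ω ≤ 2 * r * K :=
    le_of_sq_le_sq_aux hcs (by positivity)
  have hon : ∑ ω ∈ U, S ω ≤ (r : ℝ) ^ 2 * U.card := by
    calc ∑ ω ∈ U, S ω ≤ ∑ _ω ∈ U, (r : ℝ) ^ 2 := Finset.sum_le_sum (fun ω _ => hS1 ω)
      _ = (r : ℝ) ^ 2 * U.card := by simp [mul_comm]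
  have htot : ∑ ω ∈ U, S ω + ∑ ω ∈ Uᶜ, S ω = ∑ ω, S ω := Finset.sum_add_sum_compl U S
  have hr' : (0 : ℝ) < r := by exact_mod_cast hr
  have hfin : (r : ℝ) * (((r : ℝ) * cdens h - 2) * K) ≤ r * (r * (U.card : ℝ)) := by
    nlinarith
  exact le_of_mul_le_mul_left hfin hr'

section Family

variable {V : Type} [Fintype V] [DecidableEq V] {J P : Type} [Fintype J] [Fintype P]
  [DecidableEq J]

open Classical in
/-- The family of complements. -/
noncomputable def coFam (Y : J × P → Bool → Finset V) (α : J → ℕ) : Finset (Finset V) :=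
  univ.filter (fun Q => ∃ j, Q.card = α j ∧ (∃ ρ b, Disjoint Q (Y (j, ρ) b)) ∧
    ∀ j', j' ≠ j → ∀ ρ b, ¬ Disjoint Q (Y (j', ρ) b))

lemma coFam_antichain (Y : J × P → Bool → Finset V) (α : J → ℕ) {Q Q' : Finset V}
    (hQ : Q ∈ coFam Y α) (hQ' : Q' ∈ coFam Y α) (hsub : Q ⊆ Q') : Q = Q' := by
  simp only [coFam, mem_filter, mem_univ, true_and] at hQ hQ'
  obtain ⟨j, hc, _, h3⟩ := hQ
  obtain ⟨j', hc', ⟨ρ, b, h2'⟩, _⟩ := hQ'
  by_cases hj : j' = j
  · subst hj
    exact Finset.eq_of_subset_of_card_le hsub (by omega)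
  · exact absurd (Disjoint.mono_left hsub h2') (h3 j' hj ρ b)

lemma cover (Y : J × P → Bool → Finset V) (α : J → ℕ) (D : Finset V) (j : J) (ρ : P) (N : ℕ)
    (hN : 2 * (Fintype.card J * Fintype.card P) ≤ N)
    (hdisj : Disjoint (Y (j, ρ) true) (Y (j, ρ) false))
    (h1 : α j ≤ (D \ Y (j, ρ) true).card) (h2 : α j ≤ (D \ Y (j, ρ) false).card)
    (h3 : D.card + N ≤ 2 * α j)
    (h4 : ∀ j', j' ≠ j → ∀ ρ' b', ∀ b, ¬ Disjoint (D \ Y (j, ρ) b) (Y (j', ρ') b'))
    (h5 : ¬ Disjoint D (Y (j, ρ) true)) :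
    ∃ Q ∈ coFam Y α, ∃ Q' ∈ coFam Y α, Q ≠ Q' ∧ Q ∪ Q' = D := by
  classical
  -- the chosen points
  have h4' : ∀ b : Bool, ∀ t : {t : (J × P) × Bool // t.1.1 ≠ j},
      ∃ x, x ∈ D \ Y (j, ρ) b ∧ x ∈ Y t.1.1 t.1.2 := by
    intro b t
    have := h4 t.1.1.1 t.2 t.1.1.2 t.1.2 b
    rw [Finset.not_disjoint_iff] at this
    exact this
  choose z hz1 hz2 using h4'
  set G : Bool → Finset V := fun b => univ.image (z b) with hG
  have hGcard : ∀ b, (G b).card ≤ N := by
    intro b
    calc (G b).card ≤ (univ : Finset {t : (J × P) × Bool // t.1.1 ≠ j}).card :=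
          Finset.card_image_le
      _ = Fintype.card {t : (J × P) × Bool // t.1.1 ≠ j} := rfl
      _ ≤ Fintype.card ((J × P) × Bool) := Fintype.card_subtype_le _
      _ = 2 * (Fintype.card J * Fintype.card P) := by
          simp [Fintype.card_prod]; ring
      _ ≤ N := hN
  have hGsub : ∀ b, G b ⊆ D \ Y (j, ρ) b := by
    intro b x hx
    simp only [hG, mem_image, mem_univ, true_and] at hx
    obtain ⟨t, rfl⟩ := hx
    exact hz1 b t
  -- first set
  have hQ0 : (D ∩ Y (j, ρ) false) ∪ G true ⊆ D \ Y (j, ρ) true := by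
    apply Finset.union_subset _ (hGsub true)
    intro x hx
    rw [mem_inter] at hx
    rw [mem_sdiff]
    exact ⟨hx.1, fun hh => (Finset.disjoint_left.1 hdisj) hh hx.2⟩
  have hcard1 : (D ∩ Y (j, ρ) false).card + (D \ Y (j, ρ) false).card = D.card :=
    Finset.card_inter_add_card_sdiff _ _
  have hQ0card : ((D ∩ Y (j, ρ) false) ∪ G true).card ≤ α j := by
    have := Finset.card_union_le (D ∩ Y (j, ρ) false) (G true)
    have := hGcard true
    omega
  obtain ⟨Q, hQ1, hQ2, hQ3⟩ := Finset.exists_subsuperset_card_eq hQ0 hQ0card h1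
  have hQD : Q ⊆ D := fun x hx => (mem_sdiff.1 (hQ2 hx)).1
  have hQ0' : (D \ Q) ∪ G false ⊆ D \ Y (j, ρ) false := by
    apply Finset.union_subset _ (hGsub false)
    intro x hx
    rw [mem_sdiff] at hx ⊢
    refine ⟨hx.1, fun hh => hx.2 (hQ1 ?_)⟩
    rw [mem_union, mem_inter]
    exact Or.inl ⟨hx.1, hh⟩
  have hcard2 : (D \ Q).card + Q.card = D.card := Finset.card_sdiff_add_card_eq_card hQD
  have hQ0card' : ((D \ Q) ∪ G false).card ≤ α j := by
    have := Finset.card_union_le (D \ Q) (G false)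
    have := hGcard false
    omega
  obtain ⟨Q', hQ1', hQ2', hQ3'⟩ := Finset.exists_subsuperset_card_eq hQ0' hQ0card' h2
  have hQD' : Q' ⊆ D := fun x hx => (mem_sdiff.1 (hQ2' hx)).1
  have hunion : Q ∪ Q' = D := by
    apply Finset.Subset.antisymm (Finset.union_subset hQD hQD')
    intro x hx
    by_cases hxQ : x ∈ Q
    · exact mem_union_left _ hxQ
    · apply mem_union_right
      apply hQ1'
      rw [mem_union, mem_sdiff]
      exact Or.inl ⟨hx, hxQ⟩
  have hmem : ∀ (b : Bool) (S : Finset V), G b ⊆ S → S ⊆ D \ Y (j, ρ) b → S.card = α j →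
      S ∈ coFam Y α := by
    intro b S hS1 hS2 hS3
    simp only [coFam, mem_filter, mem_univ, true_and]
    refine ⟨j, hS3, ⟨ρ, b, ?_⟩, ?_⟩
    · rw [Finset.disjoint_left]
      intro x hx
      exact (mem_sdiff.1 (hS2 hx)).2
    · intro j' hj' ρ' b'
      rw [Finset.not_disjoint_iff]
      refine ⟨z b ⟨((j', ρ'), b'), hj'⟩, hS1 ?_, hz2 b ⟨((j', ρ'), b'), hj'⟩⟩
      simp only [hG, mem_image, mem_univ, true_and]
      exact ⟨_, rfl⟩
  refine ⟨Q, hmem true Q ?_ hQ2 hQ3, Q', hmem false Q' ?_ hQ2' hQ3', ?_, hunion⟩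
  · exact fun x hx => hQ1 (mem_union_right _ hx)
  · exact fun x hx => hQ1' (mem_union_right _ hx)
  · intro heq
    apply h5
    rw [← hunion, ← heq, Finset.union_idempotent, Finset.disjoint_left]
    intro x hx
    exact (mem_sdiff.1 (hQ2 hx)).2

end Family

/-! ### Blocks -/

section Blocks

variable {V : Type} [Fintype V] [DecidableEq V] {J P : Type} [Fintype J] [Fintype P]
  [DecidableEq J] [DecidableEq P] {h : ℕ}

/-- The base sets defined by a block map. -/
noncomputable def base (blk : V → Option (J × P → Fin (2 * h + 1))) (i : J × P) (b : Bool) :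
    Finset V :=
  univ.filter (fun x => ∃ ω, blk x = some ω ∧ ω i ∈ colors h b)

omit [DecidableEq V] [Fintype J] [Fintype P] [DecidableEq J] [DecidableEq P] in
lemma mem_base {blk : V → Option (J × P → Fin (2 * h + 1))} {i : J × P} {b : Bool} {x : V} :
    x ∈ base blk i b ↔ ∃ ω, blk x = some ω ∧ ω i ∈ colors h b := by
  simp [base]

omit [DecidableEq V] [Fintype J] [Fintype P] [DecidableEq J] [DecidableEq P] in
lemma base_disjoint (blk : V → Option (J × P → Fin (2 * h + 1))) (i : J × P) :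
    Disjoint (base blk i true) (base blk i false) := by
  rw [Finset.disjoint_left]
  intro x hx hx'
  rw [mem_base] at hx hx'
  obtain ⟨ω, h1, h2⟩ := hx
  obtain ⟨ω', h1', h2'⟩ := hx'
  rw [h1] at h1'
  have : ω = ω' := Option.some.inj h1'
  subst this
  exact (Finset.disjoint_left.1 (colors_disjoint h)) h2 h2'

/-- Number of points of `D` in the block `ω`. -/
noncomputable def wt (blk : V → Option (J × P → Fin (2 * h + 1))) (D : Finset V)
    (ω : J × P → Fin (2 * h + 1)) : ℕ :=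
  (D.filter (fun x => blk x = some ω)).card

/-- The blocks missed by `D`. -/
noncomputable def missed (blk : V → Option (J × P → Fin (2 * h + 1))) (D : Finset V) :
    Finset (J × P → Fin (2 * h + 1)) :=
  univ.filter (fun ω => wt blk D ω = 0)

lemma sum_wt_base (blk : V → Option (J × P → Fin (2 * h + 1))) (D : Finset V) (i : J × P)
    (b : Bool) :
    ((D ∩ base blk i b).card : ℝ)
      = ∑ ω : J × P → Fin (2 * h + 1), (wt blk D ω : ℝ) * (if ω i ∈ colors h b then 1 else 0) := by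
  classical
  have h1 : D ∩ base blk i b
      = (univ.filter (fun ω : J × P → Fin (2 * h + 1) => ω i ∈ colors h b)).biUnion
        (fun ω => D.filter (fun x => blk x = some ω)) := by
    ext x
    simp only [mem_inter, mem_base, mem_biUnion, mem_filter, mem_univ, true_and]
    constructor
    · rintro ⟨hx, ω, h1, h2⟩
      exact ⟨ω, h2, hx, h1⟩
    · rintro ⟨ω, h2, hx, h1⟩
      exact ⟨hx, ω, h1, h2⟩
  rw [h1, Finset.card_biUnion]
  · push_cast
    rw [Finset.sum_filter]
    apply Finset.sum_congr rfl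
    intro ω _
    split_ifs <;> simp [wt]
  · intro ω _ ω' _ hne
    rw [Function.onFun, Finset.disjoint_left]
    intro x hx hx'
    rw [mem_filter] at hx hx'
    exact hne (Option.some.inj (hx.2.symm.trans hx'.2))

omit [Fintype V] in
lemma sum_wt_le (blk : V → Option (J × P → Fin (2 * h + 1))) (D : Finset V) :
    ∑ ω : J × P → Fin (2 * h + 1), (wt blk D ω : ℝ) ≤ D.card := by
  classical
  have h1 : (univ : Finset (J × P → Fin (2 * h + 1))).biUnion
      (fun ω => D.filter (fun x => blk x = some ω)) ⊆ D := by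
    intro x hx
    rw [mem_biUnion] at hx
    obtain ⟨ω, _, hx⟩ := hx
    exact (mem_filter.1 hx).1
  have h2 := Finset.card_le_card h1
  rw [Finset.card_biUnion] at h2
  · exact_mod_cast h2
  · intro ω _ ω' _ hne
    rw [Function.onFun, Finset.disjoint_left]
    intro x hx hx'
    rw [mem_filter] at hx hx'
    exact hne (Option.some.inj (hx.2.symm.trans hx'.2))

/-- If `D` is not covered, then `D` misses many blocks. -/
lemma fail_missed (blk : V → Option (J × P → Fin (2 * h + 1))) (α : J → ℕ) (D : Finset V)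
    (j : J) (v N r : ℕ) (hr : 0 < r)
    (hv : ∀ ω, (univ.filter (fun x => blk x = some ω)).card ≤ v)
    (hvK : v * Fintype.card (J × P → Fin (2 * h + 1)) ≤ Fintype.card V)
    (hN : 2 * (Fintype.card J * Fintype.card P) ≤ N)
    (hD : Fintype.card V ≤ 20 * D.card) (hV : 0 < Fintype.card V)
    (hα1 : D.card + N ≤ 2 * α j)
    (hα2 : (α j : ℝ) ≤ (D.card : ℝ) / 2 + (D.card : ℝ) / (4 * (2 * h + 1)))
    (hP : 2 * (6400 * (2 * h + 1) ^ 2) + r ^ 2 ≤ Fintype.card P)
    (hfail : ¬ ∃ Q ∈ coFam (base blk) α, ∃ Q' ∈ coFam (base blk) α, Q ≠ Q' ∧ Q ∪ Q' = D) :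
    ((r : ℝ) * cdens h - 2) * ((Fintype.card (J × P → Fin (2 * h + 1)) : ℕ) : ℝ)
      ≤ r * ((missed blk D).card : ℝ) := by
  classical
  set K : ℝ := ((Fintype.card (J × P → Fin (2 * h + 1)) : ℕ) : ℝ) with hK
  have hK0 : 0 ≤ K := by rw [hK]; positivity
  have hDpos : (0 : ℝ) < D.card := by
    have : 0 < D.card := by omega
    exact_mod_cast this
  have hs : (0 : ℝ) < 2 * h + 1 := by positivity
  -- unbalanced positions
  set bad : Bool → Finset P := fun b => univ.filter (fun ρ => (D \ base blk (j, ρ) b).card < α j)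
    with hbad
  have hbadcard : ∀ b, (bad b).card ≤ 6400 * (2 * h + 1) ^ 2 := by
    intro b
    set τ : ℝ := (D.card : ℝ) / (4 * (2 * h + 1)) with hτ
    have hτ0 : 0 < τ := by rw [hτ]; positivity
    have hbal := balance (h := h) ((bad b).map ⟨fun ρ => (j, ρ), fun ρ ρ' hh => by
        simpa using hh⟩) (fun _ => b) (fun ω => (wt blk D ω : ℝ)) v τ
      (fun ω => by positivity)
      (fun ω => by
        have h1 : wt blk D ω ≤ v := by
          refine le_trans (Finset.card_le_card ?_) (hv ω)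
          intro x hx
          rw [mem_filter] at hx ⊢
          exact ⟨mem_univ _, hx.2⟩
        exact_mod_cast h1) hτ0
      (by
        intro i hi
        rw [mem_map] at hi
        obtain ⟨ρ, hρ, rfl⟩ := hi
        simp only [hbad, mem_filter, mem_univ, true_and] at hρ
        change τ ≤ ∑ ω : J × P → Fin (2 * h + 1), (wt blk D ω : ℝ) * cen h b (ω (j, ρ))
        have h1 : ∑ ω : J × P → Fin (2 * h + 1), (wt blk D ω : ℝ) * cen h b (ω (j, ρ))
            = ((D ∩ base blk (j, ρ) b).card : ℝ)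
              - cdens h * ∑ ω : J × P → Fin (2 * h + 1), (wt blk D ω : ℝ) := by
          rw [sum_wt_base, Finset.mul_sum, ← Finset.sum_sub_distrib]
          apply Finset.sum_congr rfl
          intro ω _
          unfold cen
          ring
        rw [h1]
        have h2 : (D ∩ base blk (j, ρ) b).card + (D \ base blk (j, ρ) b).card = D.card :=
          Finset.card_inter_add_card_sdiff _ _
        have h3 : (D.card : ℝ) ≤ (D ∩ base blk (j, ρ) b).card + α j := by
          have : D.card ≤ (D ∩ base blk (j, ρ) b).card + α j := by omega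
          exact_mod_cast this
        have h4 := sum_wt_le blk D
        have h5 := mul_le_mul_of_nonneg_left h4 (cdens_nonneg h)
        have h6 : cdens h * D.card = (D.card : ℝ) / 2 - 2 * τ := by
          rw [hτ]
          unfold cdens
          field_simp
          ring
        have h7 : (α j : ℝ) ≤ (D.card : ℝ) / 2 + τ := hα2
        linarith)
    rw [card_map, ← hK] at hbal
    have hn : (v : ℝ) * K ≤ (Fintype.card V : ℝ) := by
      rw [hK]
      exact_mod_cast hvK
    have hn2 : (Fintype.card V : ℝ) ≤ 20 * (D.card : ℝ) := by exact_mod_cast hD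
    have hτ2 : (Fintype.card V : ℝ) ≤ 80 * (2 * h + 1) * τ := by
      have : 80 * (2 * (h : ℝ) + 1) * τ = 20 * (D.card : ℝ) := by
        rw [hτ]; field_simp; ring
      rw [this]; exact hn2
    have h8 : ((bad b).card : ℝ) * τ ^ 2 ≤ (6400 * (2 * h + 1) ^ 2) * τ ^ 2 := by
      calc ((bad b).card : ℝ) * τ ^ 2 ≤ ((v : ℝ) * K) ^ 2 := hbal
        _ ≤ (80 * (2 * h + 1) * τ) ^ 2 := by
            apply pow_le_pow_left₀ (by positivity) (le_trans hn hτ2)
        _ = (6400 * (2 * h + 1) ^ 2) * τ ^ 2 := by ring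
    have h9 : ((bad b).card : ℝ) ≤ 6400 * (2 * h + 1) ^ 2 :=
      le_of_mul_le_mul_right h8 (by positivity)
    exact_mod_cast h9
  -- good positions
  have hgood : r ^ 2 ≤ (univ \ (bad true ∪ bad false)).card := by
    have h1 := hbadcard true
    have h2 := hbadcard false
    have h3 := Finset.card_union_le (bad true) (bad false)
    have h4 : (univ \ (bad true ∪ bad false)).card + (bad true ∪ bad false).card
        = (univ : Finset P).card := Finset.card_sdiff_add_card_eq_card (subset_univ _)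
    rw [Finset.card_univ] at h4
    omega
  obtain ⟨P', hP'1, hP'2⟩ := Finset.exists_subset_card_eq hgood
  have hg : ∀ ρ ∈ P', ∀ b, α j ≤ (D \ base blk (j, ρ) b).card := by
    intro ρ hρ b
    have h1 := hP'1 hρ
    rw [mem_sdiff, mem_union, not_or] at h1
    have h2 : ρ ∉ bad b := by
      cases b
      · exact h1.2.2
      · exact h1.2.1
    simp only [hbad, mem_filter, mem_univ, true_and, not_lt] at h2
    exact h2
  -- each good position fails for another reason
  have hreason : ∀ ρ ∈ P', Disjoint D (base blk (j, ρ) true) ∨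
      ∃ j', j' ≠ j ∧ ∃ ρ' b' b, Disjoint (D \ base blk (j, ρ) b) (base blk (j', ρ') b') := by
    intro ρ hρ
    by_contra hcon
    push Not at hcon
    apply hfail
    exact cover (base blk) α D j ρ N hN (base_disjoint blk (j, ρ)) (hg ρ hρ true) (hg ρ hρ false)
      hα1 (fun j' hj' ρ' b' b => hcon.2 j' hj' ρ' b' b) hcon.1
  have hr' : (0 : ℝ) < r := by exact_mod_cast hr
  by_cases hex : ∃ ρ ∈ P', Disjoint D (base blk (j, ρ) true)
  · obtain ⟨ρ, _, hdis⟩ := hex
    have h1 : (univ.filter (fun ω : J × P → Fin (2 * h + 1) => ω (j, ρ) ∈ colors h true))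
        ⊆ missed blk D := by
      intro ω hω
      simp only [mem_filter, mem_univ, true_and] at hω
      simp only [missed, mem_filter, mem_univ, true_and, wt, Finset.card_eq_zero]
      rw [Finset.filter_eq_empty_iff]
      intro x hx hxω
      exact (Finset.disjoint_left.1 hdis) hx (mem_base.2 ⟨ω, hxω, hω⟩)
    have h2 : ((univ.filter (fun ω : J × P → Fin (2 * h + 1) =>
        ω (j, ρ) ∈ colors h true)).card : ℝ) = cdens h * K := by
      have h3 := sum_orth (h := h) (j, ρ) true (fun _ => 1) (by simp)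
      simp only [one_mul, cen, Finset.sum_sub_distrib] at h3
      simp only [Finset.sum_const, Finset.card_univ, nsmul_eq_mul, Finset.sum_boole] at h3
      rw [← hK] at h3
      linarith
    have h3 : cdens h * K ≤ (missed blk D).card := by
      rw [← h2]
      exact_mod_cast Finset.card_le_card h1
    nlinarith
  · push Not at hex
    have hreason' : ∀ ρ : P, ∃ t : (J × P) × Bool × Bool, ρ ∈ P' →
        t.1.1 ≠ j ∧ Disjoint (D \ base blk (j, ρ) t.2.1) (base blk t.1 t.2.2) := by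
      intro ρ
      by_cases hρ : ρ ∈ P'
      · rcases hreason ρ hρ with h1 | ⟨j', hj', ρ', b', b, h1⟩
        · exact absurd h1 (hex ρ hρ)
        · exact ⟨((j', ρ'), b, b'), fun _ => ⟨hj', h1⟩⟩
      · exact ⟨((j, ρ), true, true), fun hh => absurd hh hρ⟩
    choose t ht using hreason'
    have hI : (P'.map ⟨fun ρ => (j, ρ), fun ρ ρ' hh => by simpa using hh⟩ :
        Finset (J × P)).card = r ^ 2 := by
      rw [card_map, hP'2]
    have := union_bound (h := h) (P'.map ⟨fun ρ => (j, ρ), fun ρ ρ' hh => by simpa using hh⟩)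
      (fun i => (t i.2).2.1) (fun i => (t i.2).1) (fun i => (t i.2).2.2) (by
        intro i hi hcon
        rw [mem_map] at hi hcon
        obtain ⟨ρ, hρ, rfl⟩ := hi
        obtain ⟨ρ', hρ', heq⟩ := hcon
        change (j, ρ') = (t ρ).1 at heq
        have h1 := (ht ρ hρ).1
        rw [← heq] at h1
        exact h1 rfl) (missed blk D) (by
        intro i hi ω h1 h2
        rw [mem_map] at hi
        obtain ⟨ρ, hρ, rfl⟩ := hi
        change ω (t ρ).1 ∈ colors h (t ρ).2.2 at h1
        change ω (j, ρ) ∉ colors h (t ρ).2.1 at h2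
        simp only [missed, mem_filter, mem_univ, true_and, wt, Finset.card_eq_zero]
        rw [Finset.filter_eq_empty_iff]
        intro x hx hxω
        have hdis := (ht ρ hρ).2
        refine (Finset.disjoint_left.1 hdis) (a := x) ?_ (mem_base.2 ⟨ω, hxω, h1⟩)
        rw [mem_sdiff, mem_base]
        refine ⟨hx, ?_⟩
        rintro ⟨ω', h3, h4⟩
        rw [hxω] at h3
        have : ω = ω' := Option.some.inj h3
        subst this
        exact h2 h4) r hr hI
    exact this

end Blocks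

/-! ### Counting -/

/-- The number of small sets. -/
lemma card_small (n : ℕ) :
    (((univ : Finset (Finset (Fin n))).filter (fun D => 20 * D.card < n)).card : ℝ)
      ≤ (Real.sqrt 2) ^ n := by
  set E := (univ : Finset (Finset (Fin n))).filter (fun D => 20 * D.card < n) with hE
  set k := n / 20 with hk
  have h1 : (E.card : ℝ) * (3 / 10 : ℝ) ^ k ≤ (13 / 10 : ℝ) ^ n := by
    calc (E.card : ℝ) * (3 / 10 : ℝ) ^ k = ∑ _D ∈ E, (3 / 10 : ℝ) ^ k := by simp
      _ ≤ ∑ D ∈ E, (3 / 10 : ℝ) ^ D.card := by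
          apply Finset.sum_le_sum
          intro D hD
          simp only [hE, mem_filter, mem_univ, true_and] at hD
          apply pow_le_pow_of_le_one (by norm_num) (by norm_num)
          omega
      _ ≤ ∑ D : Finset (Fin n), (3 / 10 : ℝ) ^ D.card :=
          Finset.sum_le_sum_of_subset_of_nonneg (subset_univ _) (fun _ _ _ => by positivity)
      _ = (13 / 10 : ℝ) ^ n := by
          have := Fintype.sum_pow_mul_eq_add_pow (Fin n) (3 / 10 : ℝ) 1
          simp only [one_pow, mul_one, Fintype.card_fin] at this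
          rw [this]
          norm_num
  have h2 : (3 / 10 : ℝ) ^ n ≤ ((3 / 10 : ℝ) ^ k) ^ 20 := by
    rw [← pow_mul]
    apply pow_le_pow_of_le_one (by norm_num) (by norm_num)
    omega
  have h3 : (E.card : ℝ) ^ 20 * (3 / 10 : ℝ) ^ n ≤ ((13 / 10 : ℝ) ^ n) ^ 20 := by
    calc (E.card : ℝ) ^ 20 * (3 / 10 : ℝ) ^ n
        ≤ (E.card : ℝ) ^ 20 * ((3 / 10 : ℝ) ^ k) ^ 20 := by
          apply mul_le_mul_of_nonneg_left h2 (by positivity)
      _ = ((E.card : ℝ) * (3 / 10 : ℝ) ^ k) ^ 20 := by rw [mul_pow]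
      _ ≤ ((13 / 10 : ℝ) ^ n) ^ 20 := pow_le_pow_left₀ (by positivity) h1 20
  have h4 : ((13 / 10 : ℝ) ^ n) ^ 20 ≤ ((1024 : ℝ) ^ n) * (3 / 10 : ℝ) ^ n := by
    rw [← mul_pow, ← pow_mul, mul_comm n 20, pow_mul]
    apply pow_le_pow_left₀ (by positivity)
    norm_num
  have h5 : (E.card : ℝ) ^ 20 ≤ (1024 : ℝ) ^ n := by
    have h6 : (0 : ℝ) < (3 / 10 : ℝ) ^ n := by positivity
    exact le_of_mul_le_mul_right (le_trans h3 h4) h6
  have h7 : (1024 : ℝ) ^ n = ((Real.sqrt 2) ^ n) ^ 20 := by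
    rw [← pow_mul, mul_comm n 20, pow_mul]
    congr 1
    have : (Real.sqrt 2) ^ 20 = ((Real.sqrt 2) ^ 2) ^ 10 := by rw [← pow_mul]
    rw [this, Real.sq_sqrt (by norm_num)]
    norm_num
  rw [h7] at h5
  exact le_of_pow_le_pow_left₀ (by norm_num) (by positivity) h5

/-- A map to blocks all of whose fibres have size `v`. -/
lemma exists_blk (Ω : Type) [Fintype Ω] [DecidableEq Ω] (n v : ℕ)
    (hv : Fintype.card Ω * v ≤ n) :
    ∃ blk : Fin n → Option Ω, ∀ ω, (univ.filter (fun x => blk x = some ω)).card = v := by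
  have hcard : Fintype.card (Ω × Fin v ⊕ Fin (n - Fintype.card Ω * v)) = Fintype.card (Fin n) := by
    simp only [Fintype.card_sum, Fintype.card_prod, Fintype.card_fin]
    omega
  obtain ⟨e⟩ : Nonempty ((Ω × Fin v ⊕ Fin (n - Fintype.card Ω * v)) ≃ Fin n) :=
    ⟨Fintype.equivOfCardEq hcard⟩
  refine ⟨fun x => Sum.elim (fun p : Ω × Fin v => some p.1) (fun _ => none) (e.symm x), ?_⟩
  intro ω
  have h1 : (univ.filter (fun x : Fin n =>
      Sum.elim (fun p : Ω × Fin v => some p.1) (fun _ => none) (e.symm x) = some ω))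
      = (univ : Finset (Fin v)).image (fun t => e (Sum.inl (ω, t))) := by
    ext x
    simp only [mem_filter, mem_univ, true_and, mem_image]
    constructor
    · intro hx
      rcases hex : e.symm x with p | y
      · rw [hex] at hx
        simp only [Sum.elim_inl, Option.some.injEq] at hx
        refine ⟨p.2, ?_⟩
        rw [← hx, Prod.mk.eta, ← hex, Equiv.apply_symm_apply]
      · rw [hex] at hx
        simp at hx
    · rintro ⟨t, rfl⟩
      simp
  rw [h1, Finset.card_image_of_injective]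
  · simp
  · intro t t' hh
    have := e.injective hh
    simpa using this

/-- The number of sets missing many blocks. -/
lemma card_missing {Ω : Type} [Fintype Ω] [DecidableEq Ω] (n v : ℕ) (blk : Fin n → Option Ω)
    (hblk : ∀ ω, (univ.filter (fun x => blk x = some ω)).card = v) (θ : ℝ) (hθ : 0 ≤ θ)
    (hv1 : v * Fintype.card Ω ≤ n) (hv2 : n ≤ v * Fintype.card Ω + Fintype.card Ω) :
    (((univ : Finset (Finset (Fin n))).filter (fun D =>
      θ * (Fintype.card Ω : ℝ) ≤
        ((univ.filter (fun ω => (D.filter (fun x => blk x = some ω)).card = 0)).card : ℝ))).card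
          : ℝ)
      ≤ (2 : ℝ) ^ (Fintype.card Ω) * (2 : ℝ) ^ (θ * Fintype.card Ω)
        * ((2 : ℝ) ^ (1 - θ)) ^ n := by
  classical
  set K := Fintype.card Ω with hK
  set PP : Finset (Finset Ω) := univ.filter (fun Ψ => θ * (K : ℝ) ≤ (Ψ.card : ℝ)) with hPP
  set W : Finset Ω → Finset (Fin n) := fun Ψ => univ.filter (fun x => ∀ ω ∈ Ψ, blk x ≠ some ω)
    with hW
  have hWcard : ∀ Ψ, (W Ψ).card = n - v * Ψ.card := by
    intro Ψ
    have h1 : (W Ψ)ᶜ = Ψ.biUnion (fun ω => univ.filter (fun x => blk x = some ω)) := by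
      ext x
      simp only [hW, mem_compl, mem_filter, mem_univ, true_and, mem_biUnion]
      push Not
      rfl
    have h2 : (W Ψ)ᶜ.card = v * Ψ.card := by
      rw [h1, Finset.card_biUnion]
      · simp only [hblk, Finset.sum_const, smul_eq_mul]
        ring
      · intro ω _ ω' _ hne
        rw [Function.onFun, Finset.disjoint_left]
        intro x hx hx'
        rw [mem_filter] at hx hx'
        exact hne (Option.some.inj (hx.2.symm.trans hx'.2))
    rw [Finset.card_compl, Fintype.card_fin] at h2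
    have h3 : (W Ψ).card ≤ n := by
      simpa using Finset.card_le_univ (W Ψ)
    omega
  have hsub : ((univ : Finset (Finset (Fin n))).filter (fun D =>
      θ * (K : ℝ) ≤
        ((univ.filter (fun ω => (D.filter (fun x => blk x = some ω)).card = 0)).card : ℝ)))
      ⊆ PP.biUnion (fun Ψ => (W Ψ).powerset) := by
    intro D hD
    simp only [mem_filter, mem_univ, true_and] at hD
    rw [mem_biUnion]
    refine ⟨univ.filter (fun ω => (D.filter (fun x => blk x = some ω)).card = 0), ?_, ?_⟩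
    · simp only [hPP, mem_filter, mem_univ, true_and]
      exact hD
    · rw [mem_powerset]
      intro x hx
      simp only [hW, mem_filter, mem_univ, true_and]
      intro ω hω hxω
      rw [Finset.card_eq_zero, Finset.filter_eq_empty_iff] at hω
      exact hω hx hxω
  have h1 := Finset.card_le_card hsub
  have h2 := le_trans h1 (Finset.card_biUnion_le)
  have h3 : (((univ : Finset (Finset (Fin n))).filter (fun D =>
      θ * (K : ℝ) ≤
        ((univ.filter (fun ω => (D.filter (fun x => blk x = some ω)).card = 0)).card : ℝ))).card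
          : ℝ) ≤ ∑ Ψ ∈ PP, ((W Ψ).powerset.card : ℝ) := by exact_mod_cast h2
  refine le_trans h3 ?_
  have h4 : ∀ Ψ ∈ PP, ((W Ψ).powerset.card : ℝ)
      ≤ (2 : ℝ) ^ (θ * K) * ((2 : ℝ) ^ (1 - θ)) ^ n := by
    intro Ψ hΨ
    simp only [hPP, mem_filter, mem_univ, true_and] at hΨ
    rw [Finset.card_powerset, hWcard]
    have hle : v * Ψ.card ≤ n := by
      calc v * Ψ.card ≤ v * K := Nat.mul_le_mul_left _ (Finset.card_le_univ _)
        _ ≤ n := hv1
    push_cast
    rw [← Real.rpow_natCast (2 : ℝ) (n - v * Ψ.card), ← Real.rpow_natCast ((2 : ℝ) ^ (1 - θ)) n,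
      ← Real.rpow_mul (by norm_num), ← Real.rpow_add (by norm_num)]
    apply Real.rpow_le_rpow_of_exponent_le (by norm_num)
    rw [Nat.cast_sub hle]
    push_cast
    have e1 : (v : ℝ) * (θ * K) ≤ v * Ψ.card := mul_le_mul_of_nonneg_left hΨ (by positivity)
    have e2 : (n : ℝ) ≤ v * K + K := by exact_mod_cast hv2
    have e3 : θ * (n : ℝ) ≤ θ * (v * K + K) := mul_le_mul_of_nonneg_left e2 hθ
    nlinarith
  have h5 : (PP.card : ℝ) ≤ (2 : ℝ) ^ K := by
    have : PP.card ≤ (univ : Finset (Finset Ω)).card := Finset.card_le_univ _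
    rw [Finset.card_univ, Fintype.card_finset] at this
    exact_mod_cast this
  calc ∑ Ψ ∈ PP, ((W Ψ).powerset.card : ℝ)
      ≤ ∑ _Ψ ∈ PP, (2 : ℝ) ^ (θ * K) * ((2 : ℝ) ^ (1 - θ)) ^ n := Finset.sum_le_sum h4
    _ = PP.card * ((2 : ℝ) ^ (θ * K) * ((2 : ℝ) ^ (1 - θ)) ^ n) := by simp
    _ ≤ (2 : ℝ) ^ K * ((2 : ℝ) ^ (θ * K) * ((2 : ℝ) ^ (1 - θ)) ^ n) := by
        apply mul_le_mul_of_nonneg_right h5 (by positivity)
    _ = (2 : ℝ) ^ K * (2 : ℝ) ^ (θ * K) * ((2 : ℝ) ^ (1 - θ)) ^ n := by ring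

end Pool.Agent.Lib.MP_e9f532_co
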