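import Mathlib
import Pool.Agent.Lib.MP_e9f532_co.Blocks

/-!
# Distinct pairwise intersections in an antichain

`f(n)` is the maximum number of distinct pairwise intersections in an antichain of subsets of an
`n`-set. We determine the exponential order of the deficiency `2^n - f(n)`: it is
`(√2 + o(1))^n`.

Upper bound for `f(n)`: an antichain `A` is disjoint from its set of intersections `I`, and
`|I| ≤ |A|^2 - |A|`, so `2^n - |I| ≥ √(2^n)`.

Lower bound: split the ground set into a bounded number of blocks indexed by a product space. A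
bounded number of pairs of disjoint base sets (unions of blocks, each of relative size slightly
less than one half) is distributed over a bounded number of levels `a_1 < a_2 < …`, and the
antichain consists of all sets of size `a_j` that contain a base set of level `j` and no base set
of another level. A second moment argument shows that every set is an intersection of two
members, unless it is very large or contains almost half of the blocks.
-/

open Finset Pool.Agent.Lib.MP_e9f532_co

namespace Pool.Agent.Results.MP_e9f532_co.ExponentialRate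

/-! ### The extremal function -/

/-- The family of all sets that occur as the intersection of two different members. -/
def inters {V : Type} [DecidableEq V] (A : Finset (Finset V)) : Finset (Finset V) :=
  A.offDiag.image (fun p => p.1 ∩ p.2)

/-- `f(n)`: the maximum of `|inters A|` over all antichains `A` of subsets of an `n`-set. -/
noncomputable def f (n : ℕ) : ℕ :=
  sSup {m : ℕ | ∃ A : Finset (Finset (Fin n)),
    IsAntichain (· ⊆ ·) (A : Set (Finset (Fin n))) ∧ m = (inters A).card}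

lemma f_bdd (n : ℕ) : BddAbove {m : ℕ | ∃ A : Finset (Finset (Fin n)),
    IsAntichain (· ⊆ ·) (A : Set (Finset (Fin n))) ∧ m = (inters A).card} := by
  refine ⟨Fintype.card (Finset (Fin n)), ?_⟩
  rintro m ⟨A, _, rfl⟩
  exact Finset.card_le_univ _

lemma le_f {n : ℕ} {A : Finset (Finset (Fin n))}
    (hA : IsAntichain (· ⊆ ·) (A : Set (Finset (Fin n)))) : (inters A).card ≤ f n :=
  le_csSup (f_bdd n) ⟨A, hA, rfl⟩

lemma exists_f (n : ℕ) : ∃ A : Finset (Finset (Fin n)),
    IsAntichain (· ⊆ ·) (A : Set (Finset (Fin n))) ∧ (inters A).card = f n := by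
  have hne : {m : ℕ | ∃ A : Finset (Finset (Fin n)),
      IsAntichain (· ⊆ ·) (A : Set (Finset (Fin n))) ∧ m = (inters A).card}.Nonempty :=
    ⟨_, ∅, by simp, rfl⟩
  obtain ⟨A, hA, h⟩ := Nat.sSup_mem hne (f_bdd n)
  exact ⟨A, hA, h.symm⟩

lemma upper_aux {n : ℕ} {A : Finset (Finset (Fin n))}
    (hA : IsAntichain (· ⊆ ·) (A : Set (Finset (Fin n)))) :
    (inters A).card ≤ 2 ^ n ∧ 2 ^ n ≤ (2 ^ n - (inters A).card) ^ 2 := by
  classical
  have hdis : Disjoint (inters A) A := by
    rw [Finset.disjoint_left]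
    intro B hB hBA
    simp only [inters, mem_image, mem_offDiag] at hB
    obtain ⟨⟨A1, A2⟩, ⟨h1, h2, hne⟩, rfl⟩ := hB
    simp only at hBA h1 h2 hne
    have e1 : A1 ∩ A2 = A1 := by
      by_contra hcon
      exact hA (by exact_mod_cast hBA) (by exact_mod_cast h1) hcon Finset.inter_subset_left
    have e2 : A1 ∩ A2 = A2 := by
      by_contra hcon
      exact hA (by exact_mod_cast hBA) (by exact_mod_cast h2) hcon Finset.inter_subset_right
    exact hne (e1.symm.trans e2)
  have h1 : (inters A).card + A.card ≤ 2 ^ n := by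
    rw [← Finset.card_union_of_disjoint hdis]
    have := Finset.card_le_univ (inters A ∪ A)
    simpa [Fintype.card_finset] using this
  have h2 : (inters A).card ≤ A.card * A.card - A.card := by
    calc (inters A).card ≤ A.offDiag.card := Finset.card_image_le
      _ = A.card * A.card - A.card := Finset.offDiag_card A
  refine ⟨by omega, ?_⟩
  set I := (inters A).card with hI
  set N := A.card with hN
  obtain ⟨e, he⟩ : ∃ e, 2 ^ n = I + e := ⟨2 ^ n - I, by omega⟩
  have hNe : N ≤ e := by omega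
  rw [he, Nat.add_sub_cancel_left]
  have h3 : I + N ≤ N * N := by
    have : N ≤ N * N := Nat.le_mul_self N
    omega
  nlinarith [Nat.le_mul_self N, Nat.mul_le_mul hNe hNe]

lemma f_upper (n : ℕ) : (Real.sqrt 2) ^ n ≤ (2 : ℝ) ^ n - f n := by
  obtain ⟨A, hA, hfA⟩ := exists_f n
  obtain ⟨h1, h2⟩ := upper_aux hA
  rw [hfA] at h1 h2
  have h3 : ((2 ^ n - f n : ℕ) : ℝ) = (2 : ℝ) ^ n - f n := by
    rw [Nat.cast_sub h1]
    push_cast
    ring
  have h4 : ((Real.sqrt 2) ^ n) ^ 2 ≤ ((2 : ℝ) ^ n - f n) ^ 2 := by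
    rw [← pow_mul, mul_comm n 2, pow_mul, Real.sq_sqrt (by norm_num), ← h3]
    exact_mod_cast h2
  have h5 : (0 : ℝ) ≤ (2 : ℝ) ^ n - f n := by
    rw [← h3]; positivity
  exact le_of_sq_le_sq_aux h4 h5

/-- The antichain has few uncovered sets. -/
lemma covered_count {n : ℕ} (Fam : Finset (Finset (Fin n)))
    (hFam : ∀ Q ∈ Fam, ∀ Q' ∈ Fam, Q ⊆ Q' → Q = Q') (E : Finset (Finset (Fin n)))
    (hE : ∀ D : Finset (Fin n), D ∉ E → ∃ Q ∈ Fam, ∃ Q' ∈ Fam, Q ≠ Q' ∧ Q ∪ Q' = D) :
    (2 : ℝ) ^ n - f n ≤ E.card := by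
  classical
  set A : Finset (Finset (Fin n)) := Fam.image (fun Q => Qᶜ) with hA
  have hanti : IsAntichain (· ⊆ ·) (A : Set (Finset (Fin n))) := by
    intro B hB B' hB' hne hsub
    have hB1 : B ∈ A := by exact_mod_cast hB
    have hB1' : B' ∈ A := by exact_mod_cast hB'
    rw [hA, mem_image] at hB1 hB1'
    obtain ⟨Q, hQ, rfl⟩ := hB1
    obtain ⟨Q', hQ', rfl⟩ := hB1'
    apply hne
    have h1 : Q' ⊆ Q := Finset.compl_subset_compl.1 hsub
    rw [hFam Q' hQ' Q hQ h1]
  have hsub : (Eᶜ).image (fun D => Dᶜ) ⊆ inters A := by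
    intro B hB
    rw [mem_image] at hB
    obtain ⟨D, hD, rfl⟩ := hB
    rw [mem_compl] at hD
    obtain ⟨Q, hQ, Q', hQ', hne, hun⟩ := hE D hD
    simp only [inters, mem_image, mem_offDiag]
    refine ⟨(Qᶜ, Q'ᶜ), ⟨?_, ?_, ?_⟩, ?_⟩
    · rw [hA, mem_image]; exact ⟨Q, hQ, rfl⟩
    · rw [hA, mem_image]; exact ⟨Q', hQ', rfl⟩
    · intro hcon
      exact hne (compl_injective hcon)
    · rw [← Finset.compl_union, hun]
  have h1 := Finset.card_le_card hsub
  rw [Finset.card_image_of_injective _ compl_injective, Finset.card_compl] at h1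
  simp only [Fintype.card_finset, Fintype.card_fin] at h1
  have h2 := le_f hanti
  have h3 : 2 ^ n ≤ f n + E.card := by omega
  have h4 : ((2 ^ n : ℕ) : ℝ) ≤ ((f n + E.card : ℕ) : ℝ) := by exact_mod_cast h3
  push_cast at h4
  linarith

/-- The quantitative lower bound for fixed parameters. -/
lemma lower_fixed_aux (h r s q R N K : ℕ) (hr : 0 < r) (hθ : 0 ≤ cdens h - 2 / r)
    (hs : s = 2 * h + 1) (hq : q = 160 * s) (hR : R = 2 * (6400 * (2 * h + 1) ^ 2) + r ^ 2)
    (hN : N = 2 * (q * R)) (hK : K = Fintype.card (Fin q × Fin R → Fin (2 * h + 1)))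
    (n : ℕ) (hn' : 80 * s * N + N + 2 * q + 1 ≤ n) :
    (2 : ℝ) ^ n - f n ≤ (2 : ℝ) ^ K * (2 : ℝ) ^ ((cdens h - 2 / r) * K)
      * ((2 : ℝ) ^ (1 - (cdens h - 2 / r))) ^ n + (Real.sqrt 2) ^ n := by
  classical
  have hspos : 0 < s := by omega
  have hqpos : 0 < q := by omega
  have hRpos : 0 < R := by
    rw [hR]; positivity
  have hKpos : 0 < K := by
    rw [hK]
    exact Fintype.card_pos
  have hNpos : 0 < N := by
    rw [hN]
    positivity
  obtain ⟨θ, hθdef⟩ : ∃ θ : ℝ, θ = cdens h - 2 / r := ⟨_, rfl⟩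
  rw [← hθdef] at hθ ⊢
  -- blocks
  obtain ⟨v, hvK1, hvK2⟩ : ∃ v, v * K ≤ n ∧ n ≤ v * K + K := by
    refine ⟨n / K, Nat.div_mul_le_self n K, ?_⟩
    have := Nat.div_add_mod n K
    have h2 := Nat.mod_lt n hKpos
    nlinarith
  obtain ⟨blk, hblk⟩ := exists_blk (Fin q × Fin R → Fin (2 * h + 1)) n v (by
    rw [← hK, mul_comm]; exact hvK1)
  obtain ⟨w, hw1, hw2⟩ : ∃ w, w * q ≤ n ∧ n < w * q + q := by
    refine ⟨n / q, Nat.div_mul_le_self n q, ?_⟩
    have := Nat.div_add_mod n q
    have h2 := Nat.mod_lt n hqpos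
    nlinarith
  obtain ⟨α, hα⟩ : ∃ α : Fin q → ℕ, ∀ j, α j = ((j : ℕ) + 1) * w := ⟨_, fun j => rfl⟩
  set E1 := (univ : Finset (Finset (Fin n))).filter (fun D => 20 * D.card < n) with hE1
  set E2 := (univ : Finset (Finset (Fin n))).filter (fun D =>
      θ * (K : ℝ) ≤
        ((univ.filter (fun ω => (D.filter (fun x => blk x = some ω)).card = 0)).card : ℝ))
    with hE2
  have hcov := covered_count (coFam (base blk) α)
    (fun Q hQ Q' hQ' hsub => coFam_antichain _ _ hQ hQ' hsub) (E1 ∪ E2) (by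
    intro D hD
    rw [mem_union, not_or] at hD
    obtain ⟨hD1, hD2⟩ := hD
    simp only [hE1, mem_filter, mem_univ, true_and, not_lt] at hD1
    simp only [hE2, mem_filter, mem_univ, true_and, not_le] at hD2
    by_contra hcon
    -- choose the level
    have hDn : D.card ≤ n := by simpa using Finset.card_le_univ D
    have hex : ∃ t, D.card + N ≤ 2 * (t * w) := by
      refine ⟨q, ?_⟩
      nlinarith
    obtain ⟨t, ht, hmin⟩ : ∃ t, D.card + N ≤ 2 * (t * w) ∧
        ∀ t' < t, ¬ D.card + N ≤ 2 * (t' * w) :=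
      ⟨Nat.find hex, Nat.find_spec hex, fun t' ht' => Nat.find_min hex ht'⟩
    have ht0 : 0 < t := by
      rcases Nat.eq_zero_or_pos t with h0 | h0
      · subst h0
        simp only [zero_mul, mul_zero] at ht
        omega
      · exact h0
    have htq : t ≤ q := by
      by_contra hlt
      push Not at hlt
      apply hmin q hlt
      nlinarith
    have hprev := hmin (t - 1) (by omega)
    push Not at hprev
    have hαj : α ⟨t - 1, by omega⟩ = t * w := by
      rw [hα]
      congr 1
      simp only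
      omega
    have hα2 : (α ⟨t - 1, by omega⟩ : ℝ) ≤ (D.card : ℝ) / 2 + (D.card : ℝ) / (4 * (2 * h + 1)) := by
      rw [hαj]
      have e1 : 2 * (t * w) < D.card + N + 2 * w := by
        have : t * w = (t - 1) * w + w := by
          obtain ⟨t', rfl⟩ : ∃ t', t = t' + 1 := ⟨t - 1, by omega⟩
          simp only [Nat.add_sub_cancel]
          ring
        omega
      have e2 : (2 * (t * w) : ℝ) < D.card + N + 2 * w := by exact_mod_cast e1
      have e3 : (160 : ℝ) * s * w ≤ n := by
        have : w * q ≤ n := hw1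
        rw [hq] at this
        have h' : ((w * (160 * s) : ℕ) : ℝ) ≤ (n : ℝ) := by exact_mod_cast this
        push_cast at h'
        linarith
      have e4 : (80 : ℝ) * s * N ≤ n := by
        have : 80 * s * N ≤ n := by omega
        exact_mod_cast this
      have e5 : (n : ℝ) ≤ 20 * D.card := by exact_mod_cast hD1
      have e6 : (s : ℝ) = 2 * h + 1 := by rw [hs]; push_cast; ring
      have hs' : (0 : ℝ) < s := by exact_mod_cast hspos
      have e7 : (N : ℝ) / 2 + w ≤ (D.card : ℝ) / (4 * (2 * h + 1)) := by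
        rw [← e6, le_div_iff₀ (by positivity)]
        nlinarith
      push_cast
      linarith
    have hmain := fail_missed blk α D ⟨t - 1, by omega⟩ v N r hr (fun ω => (hblk ω).le)
      (by rw [← hK]; simpa using hvK1) (by simp [hN])
      (by simpa using hD1) (by simp; omega) (by rw [hαj]; exact ht) hα2
      (by simp [hR]) hcon
    have hr' : (0 : ℝ) < r := by exact_mod_cast hr
    rw [← hK] at hmain
    have h1 : ((missed blk D).card : ℝ) < θ * K := hD2
    have h2 : (r : ℝ) * ((missed blk D).card : ℝ) < r * (θ * K) :=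
      mul_lt_mul_of_pos_left h1 hr'
    have h3 : (r : ℝ) * (θ * K) = ((r : ℝ) * cdens h - 2) * K := by
      rw [hθdef]; field_simp
    linarith)
  have hc1 := card_small n
  have hc2 := card_missing n v blk hblk θ hθ (by rw [← hK]; exact hvK1)
    (by rw [← hK]; exact hvK2)
  rw [← hK] at hc2
  have hc3 : ((E1 ∪ E2).card : ℝ) ≤ E1.card + E2.card := by
    exact_mod_cast Finset.card_union_le E1 E2
  calc (2 : ℝ) ^ n - f n ≤ ((E1 ∪ E2).card : ℝ) := hcov
    _ ≤ E1.card + E2.card := hc3
    _ ≤ (Real.sqrt 2) ^ n + (2 : ℝ) ^ K * (2 : ℝ) ^ (θ * K) * ((2 : ℝ) ^ (1 - θ)) ^ n :=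
        add_le_add hc1 hc2
    _ = _ := by ring

/-- The quantitative lower bound for fixed parameters. -/
lemma lower_fixed (h r : ℕ) (hr : 0 < r) (hθ : 0 ≤ cdens h - 2 / r) :
    ∃ C : ℝ, ∃ n0 : ℕ, ∀ n ≥ n0,
      (2 : ℝ) ^ n - f n ≤ C * ((2 : ℝ) ^ (1 - (cdens h - 2 / r))) ^ n + (Real.sqrt 2) ^ n :=
  ⟨_, _, fun n hn => lower_fixed_aux h r _ _ _ _ _ hr hθ rfl rfl rfl rfl rfl n hn⟩

/-- For every `a > √2`, `2^n - f(n) < a^n` for all large `n`. -/
lemma lower_rate (a : ℝ) (ha : Real.sqrt 2 < a) :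
    ∀ᶠ n : ℕ in Filter.atTop, (2 : ℝ) ^ n - f n < a ^ n := by
  have hsq : (1 : ℝ) < Real.sqrt 2 := by
    rw [Real.lt_sqrt (by norm_num)]
    norm_num
  have ha0 : (0 : ℝ) < a := by linarith
  -- choose the parameters
  have hcdens : Filter.Tendsto (fun m : ℕ => cdens m) Filter.atTop (nhds (1 / 2)) := by
    have h1 : ∀ m : ℕ, cdens m = 1 / 2 - (1 / 2) * (1 / (2 * (m : ℝ) + 1)) := by
      intro m
      unfold cdens
      field_simp
      ring
    have h2 : Filter.Tendsto (fun m : ℕ => 1 / (2 * (m : ℝ) + 1)) Filter.atTop (nhds 0) := by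
      have h3 : Filter.Tendsto (fun m : ℕ => 2 * (m : ℝ) + 1) Filter.atTop Filter.atTop := by
        apply Filter.tendsto_atTop_add_const_right
        exact Filter.Tendsto.const_mul_atTop (by norm_num) tendsto_natCast_atTop_atTop
      have h3' := tendsto_inv_atTop_zero.comp h3
      refine h3'.congr (fun m => ?_)
      simp
    have h4 := (h2.const_mul (1 / 2 : ℝ)).const_sub (1 / 2 : ℝ)
    simp only [mul_zero, sub_zero] at h4
    refine h4.congr (fun m => (h1 m).symm)
  have h2m : Filter.Tendsto (fun m : ℕ => 2 / (m : ℝ)) Filter.atTop (nhds 0) :=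
    tendsto_const_div_atTop_nhds_zero_nat 2
  have hexp : Filter.Tendsto (fun m : ℕ => (2 : ℝ) ^ (1 - (cdens m - 2 / (m : ℝ)))) Filter.atTop
      (nhds (Real.sqrt 2)) := by
    have h5 : Filter.Tendsto (fun m : ℕ => 1 - (cdens m - 2 / (m : ℝ))) Filter.atTop
        (nhds (1 - (1 / 2 - 0))) := (hcdens.sub h2m).const_sub 1
    have h6 : Real.sqrt 2 = (2 : ℝ) ^ (1 - (1 / 2 - 0) : ℝ) := by
      rw [Real.sqrt_eq_rpow]
      norm_num
    rw [h6]
    exact Filter.Tendsto.rpow tendsto_const_nhds h5 (Or.inl (by norm_num))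
  have hev1 : ∀ᶠ m : ℕ in Filter.atTop, (2 : ℝ) ^ (1 - (cdens m - 2 / (m : ℝ))) < a :=
    hexp.eventually_lt_const ha
  have hev2 : ∀ᶠ m : ℕ in Filter.atTop, 0 < cdens m - 2 / (m : ℝ) := by
    have h7 := hcdens.sub h2m
    rw [sub_zero] at h7
    exact h7.eventually_const_lt (by norm_num)
  obtain ⟨m, hm1, hm2, hm3⟩ :=
    (hev1.and (hev2.and (Filter.eventually_gt_atTop 0))).exists
  obtain ⟨C, n0, hC⟩ := lower_fixed m m hm3 hm2.le
  set c : ℝ := (2 : ℝ) ^ (1 - (cdens m - 2 / (m : ℝ))) with hc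
  have hc0 : 0 < c := by rw [hc]; positivity
  have ht1 : Filter.Tendsto (fun n : ℕ => C * (c / a) ^ n) Filter.atTop (nhds 0) := by
    have := tendsto_pow_atTop_nhds_zero_of_lt_one (r := c / a) (by positivity)
      (by rw [div_lt_one ha0]; exact hm1)
    simpa using this.const_mul C
  have ht2 : Filter.Tendsto (fun n : ℕ => (Real.sqrt 2 / a) ^ n) Filter.atTop (nhds 0) :=
    tendsto_pow_atTop_nhds_zero_of_lt_one (by positivity) (by rw [div_lt_one ha0]; exact ha)
  have ht3 := ht1.add ht2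
  rw [add_zero] at ht3
  have hev3 : ∀ᶠ n : ℕ in Filter.atTop, C * (c / a) ^ n + (Real.sqrt 2 / a) ^ n < 1 :=
    ht3.eventually_lt_const (by norm_num)
  filter_upwards [hev3, Filter.eventually_ge_atTop n0] with n hn1 hn2
  have h8 := hC n hn2
  have h9 : C * c ^ n + (Real.sqrt 2) ^ n = (C * (c / a) ^ n + (Real.sqrt 2 / a) ^ n) * a ^ n := by
    rw [div_pow, div_pow]
    field_simp
  rw [h9] at h8
  have h10 : 0 < a ^ n := by positivity
  nlinarith

/-- **Main theorem.** `(2^n - f(n))^(1/n) → √2`, i.e. `f(n) = 2^n - (√2 + o(1))^n`. -/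
theorem result : Filter.Tendsto (fun n : ℕ => ((2 : ℝ) ^ n - (f n : ℝ)) ^ ((1 : ℝ) / n))
    Filter.atTop (nhds (Real.sqrt 2)) := by
  rw [tendsto_order]
  constructor
  · intro a ha
    filter_upwards [Filter.eventually_gt_atTop 0] with n hn
    have h1 := f_upper n
    have hn' : (n : ℝ) ≠ 0 := by positivity
    have h2 : Real.sqrt 2 = ((Real.sqrt 2) ^ n) ^ ((1 : ℝ) / n) := by
      rw [← Real.rpow_natCast, ← Real.rpow_mul (Real.sqrt_nonneg 2)]
      rw [mul_one_div_cancel hn', Real.rpow_one]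
    refine lt_of_lt_of_le ha ?_
    rw [h2]
    exact Real.rpow_le_rpow (by positivity) h1 (by positivity)
  · intro a ha
    have ha0 : 0 < a := lt_of_le_of_lt (Real.sqrt_nonneg 2) ha
    filter_upwards [lower_rate a ha, Filter.eventually_gt_atTop 0] with n hn hn0
    have hn' : (n : ℝ) ≠ 0 := by positivity
    have h1 := f_upper n
    have h2 : a = (a ^ n) ^ ((1 : ℝ) / n) := by
      rw [← Real.rpow_natCast, ← Real.rpow_mul ha0.le]
      rw [mul_one_div_cancel hn', Real.rpow_one]
    have h3 : (0 : ℝ) ≤ (2 : ℝ) ^ n - f n := le_trans (by positivity) h1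
    calc ((2 : ℝ) ^ n - (f n : ℝ)) ^ ((1 : ℝ) / n) < (a ^ n) ^ ((1 : ℝ) / n) :=
          Real.rpow_lt_rpow h3 hn (by positivity)
      _ = a := h2.symm

end Pool.Agent.Results.MP_e9f532_co.ExponentialRate
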